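import Mathlib

namespace Pool.Agent.Results.MP_5e4462_co.ArcBound

open Relation

/-- Strong connectivity of the digraph with arc relation `E`. -/
def StronglyConnected {V : Type*} (E : V → V → Prop) : Prop := ∀ u v, ReflTransGen E u v

/-- The underlying undirected graph has no articulation point: for every vertex `x`, any two
vertices other than `x` are joined by a path of the underlying graph avoiding `x`. -/
def NoArticulation {V : Type*} (E : V → V → Prop) : Prop :=
  ∀ x u v, u ≠ x → v ≠ x →
    ReflTransGen (fun a b => a ≠ x ∧ b ≠ x ∧ (E a b ∨ E b a)) u v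

/-- Strongly biconnected digraphs. -/
def StronglyBiconnected {V : Type*} (E : V → V → Prop) : Prop :=
  StronglyConnected E ∧ NoArticulation E

/-- Minimal strongly biconnected digraphs: deleting any arc destroys strong biconnectivity. -/
def IsMinimalSB {V : Type*} (E : V → V → Prop) : Prop :=
  StronglyBiconnected E ∧
    ∀ a b, E a b → ¬ StronglyBiconnected (fun u v => E u v ∧ ¬ (u = a ∧ v = b))

section

variable {V : Type*}

/-- walks as functions -/
lemma exists_fun {R : V → V → Prop} {a b : V} (h : ReflTransGen R a b) :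
    ∃ (n : ℕ) (p : ℕ → V), p 0 = a ∧ p n = b ∧ ∀ i < n, R (p i) (p (i + 1)) := by
  induction h with
  | refl => exact ⟨0, fun _ => a, rfl, rfl, fun i hi => absurd hi (Nat.not_lt_zero i)⟩
  | @tail b c _ hbc ih =>
    obtain ⟨n, p, h0, hn, hp⟩ := ih
    refine ⟨n + 1, fun i => if i ≤ n then p i else c, by simp [h0], by simp, fun i hi => ?_⟩
    by_cases h : i < n
    · have h1 : i ≤ n := h.le
      have h2 : i + 1 ≤ n := h
      simp only [h1, h2, if_true]
      exact hp i h
    · have h1 : i = n := by omega
      subst h1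
      simp only [le_refl, if_true]
      rw [if_neg (by omega), hn]
      exact hbc

/-- reachability along a walk -/
lemma reach_along {R : V → V → Prop} (p : ℕ → V) (i j : ℕ) (hij : i ≤ j)
    (h : ∀ k, i ≤ k → k < j → R (p k) (p (k + 1))) : ReflTransGen R (p i) (p j) := by
  induction j, hij using Nat.le_induction with
  | base => exact ReflTransGen.refl
  | succ j hij ih =>
    exact (ih fun k h1 h2 => h k h1 (by omega)).tail (h j hij (by omega))

open Classical in
/-- partial structures: a vertex set `S` and an arc set `F` inside `S` that is strongly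
biconnected on `S` with few arcs -/
def Good (E : V → V → Prop) (S : Finset V) (F : Finset (V × V)) : Prop :=
  S.Nonempty ∧ (∀ e ∈ F, E e.1 e.2) ∧
  (∀ u ∈ S, ∀ v ∈ S, ReflTransGen (fun a b => (a, b) ∈ F) u v) ∧
  (∀ x, ∀ u ∈ S, ∀ v ∈ S, u ≠ x → v ≠ x →
    ReflTransGen (fun a b => a ≠ x ∧ b ≠ x ∧ ((a, b) ∈ F ∨ (b, a) ∈ F)) u v) ∧
  F.card + 2 ≤ 2 * S.card

/-- an ear of `S`: a walk of length at least two whose interior avoids `S` and whose ends lie in
`S`, the ends being different unless `S` is a single vertex -/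
def IsEar (E : V → V → Prop) (S : Finset V) (m : ℕ) (p : ℕ → V) : Prop :=
  2 ≤ m ∧ p 0 ∈ S ∧ p m ∈ S ∧ (p 0 ≠ p m ∨ S.card = 1) ∧
    (∀ i < m, E (p i) (p (i + 1))) ∧ ∀ i, 0 < i → i < m → p i ∉ S

lemma rtg_mono {R R' : V → V → Prop} (hR : ∀ a b, R a b → R' a b) {a b : V}
    (h : ReflTransGen R a b) : ReflTransGen R' a b := by
  induction h with
  | refl => exact ReflTransGen.refl
  | tail _ hbc ih => exact ih.tail (hR _ _ hbc)

lemma symm_rtg {F : Finset (V × V)} {x : V} {a b : V}
    (h : ReflTransGen (fun a b => a ≠ x ∧ b ≠ x ∧ ((a, b) ∈ F ∨ (b, a) ∈ F)) a b) :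
    ReflTransGen (fun a b => a ≠ x ∧ b ≠ x ∧ ((a, b) ∈ F ∨ (b, a) ∈ F)) b a := by
  induction h with
  | refl => exact ReflTransGen.refl
  | tail _ hbc ih =>
    exact ReflTransGen.head ⟨hbc.2.1, hbc.1, hbc.2.2.symm⟩ ih

/-- adding a shortest ear -/
lemma add_ear (E : V → V → Prop) (S : Finset V) (F : Finset (V × V)) (hG : Good E S F)
    (m : ℕ) (p : ℕ → V) (hp : IsEar E S m p)
    (hinj : ∀ i j, 0 < i → i < j → j < m → p i ≠ p j) :
    ∃ S' F', Good E S' F' ∧ S.card < S'.card := by
  classical
  obtain ⟨hS, hFE, hsc, hna, hcard⟩ := hG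
  obtain ⟨hm, hp0, hpm, hne, harc, hout⟩ := hp
  set N : Finset V := (Finset.Ico 1 m).image p with hN
  set P : Finset (V × V) := (Finset.range m).image (fun i => (p i, p (i + 1))) with hP
  have hNcard : N.card = m - 1 := by
    rw [hN, Finset.card_image_of_injOn, Nat.card_Ico]
    intro i hi j hj hij
    simp only [Finset.coe_Ico, Set.mem_Ico] at hi hj
    rcases lt_trichotomy i j with h | h | h
    · exact absurd hij (hinj i j (by omega) h (by omega))
    · exact h
    · exact absurd hij.symm (hinj j i (by omega) h (by omega))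
  have hPcard : P.card ≤ m := by
    rw [hP]
    exact (Finset.card_image_le).trans (by simp)
  have hdisj : Disjoint S N := by
    rw [Finset.disjoint_left]
    intro a ha ha'
    rw [hN, Finset.mem_image] at ha'
    obtain ⟨i, hi, rfl⟩ := ha'
    rw [Finset.mem_Ico] at hi
    exact hout i (by omega) hi.2 ha
  have hmemN : ∀ i, 0 < i → i < m → p i ∈ N := by
    intro i h1 h2
    rw [hN, Finset.mem_image]
    exact ⟨i, by rw [Finset.mem_Ico]; omega, rfl⟩
  have hmemP : ∀ i, i < m → (p i, p (i + 1)) ∈ P := by
    intro i h1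
    rw [hP, Finset.mem_image]
    exact ⟨i, by simpa using h1, rfl⟩
  have hbase : ∀ {a b : V}, ReflTransGen (fun a b => (a, b) ∈ F) a b →
      ReflTransGen (fun a b => (a, b) ∈ F ∪ P) a b := by
    intro a b h
    exact rtg_mono (fun a b h => Finset.mem_union_left _ h) h
  have hpath : ∀ i j, i ≤ j → j ≤ m → ReflTransGen (fun a b => (a, b) ∈ F ∪ P) (p i) (p j) := by
    intro i j hij hj
    exact reach_along p i j hij fun k h1 h2 => Finset.mem_union_right _ (hmemP k (by omega))
  refine ⟨S ∪ N, F ∪ P, ⟨hS.mono Finset.subset_union_left, ?_, ?_, ?_, ?_⟩, ?_⟩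
  · intro e he
    rw [Finset.mem_union] at he
    rcases he with he | he
    · exact hFE e he
    · rw [hP, Finset.mem_image] at he
      obtain ⟨i, hi, rfl⟩ := he
      exact harc i (by simpa using hi)
  · -- strong connectivity
    have hfrom : ∀ a ∈ S ∪ N, ∃ s ∈ S, ReflTransGen (fun a b => (a, b) ∈ F ∪ P) s a := by
      intro a ha
      rw [Finset.mem_union] at ha
      rcases ha with ha | ha
      · exact ⟨a, ha, ReflTransGen.refl⟩
      · rw [hN, Finset.mem_image] at ha
        obtain ⟨i, hi, rfl⟩ := ha
        rw [Finset.mem_Ico] at hi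
        exact ⟨p 0, hp0, hpath 0 i (by omega) (by omega)⟩
    have hto : ∀ a ∈ S ∪ N, ∃ s ∈ S, ReflTransGen (fun a b => (a, b) ∈ F ∪ P) a s := by
      intro a ha
      rw [Finset.mem_union] at ha
      rcases ha with ha | ha
      · exact ⟨a, ha, ReflTransGen.refl⟩
      · rw [hN, Finset.mem_image] at ha
        obtain ⟨i, hi, rfl⟩ := ha
        rw [Finset.mem_Ico] at hi
        exact ⟨p m, hpm, hpath i m (by omega) le_rfl⟩
    intro u hu v hv
    obtain ⟨s, hs, h1⟩ := hto u hu
    obtain ⟨t, ht, h2⟩ := hfrom v hv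
    exact (h1.trans (hbase (hsc s hs t ht))).trans h2
  · -- no articulation
    intro x
    set Rx : V → V → Prop := fun a b => a ≠ x ∧ b ≠ x ∧ ((a, b) ∈ F ∪ P ∨ (b, a) ∈ F ∪ P) with hRx
    have hsym : ∀ {a b : V}, ReflTransGen Rx a b → ReflTransGen Rx b a := fun h => symm_rtg h
    have hbase' : ∀ {a b : V}, ReflTransGen (fun a b => a ≠ x ∧ b ≠ x ∧ ((a, b) ∈ F ∨ (b, a) ∈ F)) a b →
        ReflTransGen Rx a b := by
      intro a b h
      refine rtg_mono (fun a b h => ?_) h
      refine ⟨h.1, h.2.1, ?_⟩
      rcases h.2.2 with h | h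
      · exact Or.inl (Finset.mem_union_left _ h)
      · exact Or.inr (Finset.mem_union_left _ h)
    have hpathx : ∀ i j, i ≤ j → j ≤ m → (∀ k, i ≤ k → k ≤ j → p k ≠ x) →
        ReflTransGen Rx (p i) (p j) := by
      intro i j hij hj hk
      refine reach_along p i j hij fun k h1 h2 => ?_
      exact ⟨hk k h1 (by omega), hk (k + 1) (by omega) (by omega),
        Or.inl (Finset.mem_union_right _ (hmemP k (by omega)))⟩
    have hSx : ∀ u ∈ S, ∀ v ∈ S, u ≠ x → v ≠ x → ReflTransGen Rx u v :=
      fun u hu v hv h1 h2 => hbase' (hna x u hu v hv h1 h2)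
    by_cases hxN : x ∈ N
    · -- x is an interior vertex of the ear
      rw [hN, Finset.mem_image] at hxN
      obtain ⟨k, hk, hkx⟩ := hxN
      rw [Finset.mem_Ico] at hk
      have hxS : x ∉ S := by rw [← hkx]; exact hout k (by omega) hk.2
      have hne' : ∀ i, i ≤ m → i ≠ k → p i ≠ x := by
        intro i hi hik
        rw [← hkx]
        by_cases h0 : i = 0
        · subst h0; intro h; exact hout k (by omega) hk.2 (h ▸ hp0)
        by_cases h1 : i = m
        · subst h1; intro h; exact hout k (by omega) hk.2 (h ▸ hpm)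
        rcases lt_or_gt_of_ne hik with h | h
        · exact hinj i k (by omega) h hk.2
        · exact (hinj k i (by omega) h (by omega)).symm
      have hanch : ∀ a ∈ S ∪ N, a ≠ x → ∃ s ∈ S, ReflTransGen Rx a s := by
        intro a ha hax
        rw [Finset.mem_union] at ha
        rcases ha with ha | ha
        · exact ⟨a, ha, ReflTransGen.refl⟩
        · rw [hN, Finset.mem_image] at ha
          obtain ⟨i, hi, rfl⟩ := ha
          rw [Finset.mem_Ico] at hi
          have hik : i ≠ k := by rintro rfl; exact hax hkx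
          rcases lt_or_gt_of_ne hik with h | h
          · refine ⟨p 0, hp0, hsym (hpathx 0 i (by omega) (by omega) fun l _ h2 => ?_)⟩
            exact hne' l (by omega) (by omega)
          · refine ⟨p m, hpm, hpathx i m (by omega) le_rfl fun l h1 h2 => ?_⟩
            exact hne' l h2 (by omega)
      intro u hu v hv hux hvx
      obtain ⟨s, hs, h1⟩ := hanch u hu hux
      obtain ⟨t, ht, h2⟩ := hanch v hv hvx
      have hsx : s ≠ x := by rintro rfl; exact hxS hs
      have htx : t ≠ x := by rintro rfl; exact hxS ht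
      exact (h1.trans (hSx s hs t ht hsx htx)).trans (hsym h2)
    · have hint : ∀ i, 0 < i → i < m → p i ≠ x := by
        intro i h1 h2 h3
        exact hxN (h3 ▸ hmemN i h1 h2)
      -- every vertex is linked to `p 1` or to the rest of S
      by_cases hcase : p 0 ≠ x ∨ p m ≠ x
      · have hanch : ∀ a ∈ S ∪ N, a ≠ x → ∃ s ∈ S, s ≠ x ∧ ReflTransGen Rx a s := by
          intro a ha hax
          rw [Finset.mem_union] at ha
          rcases ha with ha | ha
          · exact ⟨a, ha, hax, ReflTransGen.refl⟩
          · rw [hN, Finset.mem_image] at ha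
            obtain ⟨i, hi, rfl⟩ := ha
            rw [Finset.mem_Ico] at hi
            rcases hcase with h | h
            · refine ⟨p 0, hp0, h, hsym (hpathx 0 i (by omega) (by omega) fun l _ h2 => ?_)⟩
              by_cases h0 : l = 0
              · subst h0; exact h
              · exact hint l (by omega) (by omega)
            · refine ⟨p m, hpm, h, hpathx i m (by omega) le_rfl fun l h1 h2 => ?_⟩
              by_cases h0 : l = m
              · subst h0; exact h
              · exact hint l (by omega) (by omega)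
        intro u hu v hv hux hvx
        obtain ⟨s, hs, hsx, h1⟩ := hanch u hu hux
        obtain ⟨t, ht, htx, h2⟩ := hanch v hv hvx
        exact (h1.trans (hSx s hs t ht hsx htx)).trans (hsym h2)
      · push Not at hcase
        have hS1 : S.card = 1 := by
          rcases hne with h | h
          · exact absurd (hcase.1.trans hcase.2.symm) h
          · exact h
        have honly : ∀ a ∈ S, a = x := by
          intro a ha
          obtain ⟨s, hs⟩ := Finset.card_eq_one.1 hS1
          rw [hs, Finset.mem_singleton] at ha hp0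
          rw [ha, ← hp0, hcase.1]
        have hanch : ∀ a ∈ S ∪ N, a ≠ x → ReflTransGen Rx (p 1) a := by
          intro a ha hax
          rw [Finset.mem_union] at ha
          rcases ha with ha | ha
          · exact absurd (honly a ha) hax
          · rw [hN, Finset.mem_image] at ha
            obtain ⟨i, hi, rfl⟩ := ha
            rw [Finset.mem_Ico] at hi
            exact hpathx 1 i hi.1 (by omega) fun l h1 h2 => hint l (by omega) (by omega)
        intro u hu v hv hux hvx
        exact (hsym (hanch u hu hux)).trans (hanch v hv hvx)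
  · rw [Finset.card_union_of_disjoint hdisj, hNcard]
    have := Finset.card_union_le F P
    omega
  · rw [Finset.card_union_of_disjoint hdisj, hNcard]
    omega

/-- a shortest ear has distinct interior vertices -/
lemma shortest_ear (E : V → V → Prop) (S : Finset V) (h : ∃ m p, IsEar E S m p) :
    ∃ m p, IsEar E S m p ∧ ∀ i j, 0 < i → i < j → j < m → p i ≠ p j := by
  classical
  obtain ⟨p, hp⟩ := Nat.find_spec h
  refine ⟨Nat.find h, p, hp, ?_⟩
  intro i j hi hij hj heq
  obtain ⟨hm, hp0, hpm, hne, harc, hout⟩ := hp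
  set m := Nat.find h with hmdef
  refine Nat.find_min h (m := m - (j - i)) (by omega) ?_
  refine ⟨fun t => if t ≤ i then p t else p (t + (j - i)), ?_, ?_, ?_, ?_, ?_, ?_⟩
  · omega
  · simpa using hp0
  · have h1 : ¬ (m - (j - i) ≤ i) := by omega
    have h2 : m - (j - i) + (j - i) = m := by omega
    simp only [h1, if_false, h2]
    exact hpm
  · have h1 : ¬ (m - (j - i) ≤ i) := by omega
    have h2 : m - (j - i) + (j - i) = m := by omega
    simp only [h1, if_false, h2, Nat.zero_le, if_true]
    exact hne
  · intro t ht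
    by_cases h1 : t < i
    · have h2 : t ≤ i := h1.le
      have h3 : t + 1 ≤ i := h1
      simp only [h2, h3, if_true]
      exact harc t (by omega)
    · by_cases h2 : t = i
      · subst h2
        have h3 : ¬ (t + 1 ≤ t) := by omega
        simp only [le_refl, if_true, h3, if_false]
        rw [heq]
        have h4 : t + 1 + (j - t) = j + 1 := by omega
        rw [h4]
        exact harc j (by omega)
      · have h3 : ¬ (t ≤ i) := by omega
        have h4 : ¬ (t + 1 ≤ i) := by omega
        simp only [h3, h4, if_false]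
        have h5 : t + 1 + (j - i) = t + (j - i) + 1 := by omega
        rw [h5]
        exact harc _ (by omega)
  · intro t h1 h2
    by_cases h3 : t ≤ i
    · simp only [h3, if_true]
      exact hout t h1 (by omega)
    · simp only [h3, if_false]
      exact hout _ (by omega) (by omega)

/-- the arcs outside `S` -/
def Eo (E : V → V → Prop) (S : Finset V) (a b : V) : Prop := E a b ∧ a ∉ S ∧ b ∉ S

lemma last_exit (E : V → V → Prop) (S : Finset V) {s x : V} (h : ReflTransGen E s x)
    (hs : s ∈ S) (hx : x ∉ S) :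
    ∃ u y, u ∈ S ∧ y ∉ S ∧ E u y ∧ ReflTransGen (Eo E S) y x := by
  induction h with
  | refl => exact absurd hs hx
  | @tail b c _ hbc ih =>
    by_cases hb : b ∈ S
    · exact ⟨b, c, hb, hx, hbc, ReflTransGen.refl⟩
    · obtain ⟨u, y, hu, hy, huy, hyb⟩ := ih hb
      exact ⟨u, y, hu, hy, huy, hyb.tail ⟨hbc, hb, hx⟩⟩

lemma first_entrance (E : V → V → Prop) (S : Finset V) {x s : V} (h : ReflTransGen E x s)
    (hx : x ∉ S) (hs : s ∈ S) :
    ∃ z w, z ∉ S ∧ w ∈ S ∧ ReflTransGen (Eo E S) x z ∧ E z w := by
  revert hx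
  induction h using ReflTransGen.head_induction_on with
  | refl => intro hx; exact absurd hs hx
  | @head a c hac _ ih =>
    intro hx
    by_cases hc : c ∈ S
    · exact ⟨a, c, hx, hc, ReflTransGen.refl, hac⟩
    · obtain ⟨z, w, hz, hw, hcz, hzw⟩ := ih hc
      exact ⟨z, w, hz, hw, hcz.head ⟨hac, hx, hc⟩, hzw⟩

lemma ear_of_walk (E : V → V → Prop) (S : Finset V) (u y z w : V) (hu : u ∈ S) (hw : w ∈ S)
    (hy : y ∉ S) (hz : z ∉ S) (huw : u ≠ w ∨ S.card = 1) (huy : E u y)
    (hyz : ReflTransGen (Eo E S) y z) (hzw : E z w) : ∃ m p, IsEar E S m p := by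
  obtain ⟨n, q, q0, qn, hq⟩ := exists_fun hyz
  refine ⟨n + 2, fun t => if t = 0 then u else if t = n + 2 then w else q (t - 1), by omega,
    by simpa using hu, by simpa using hw, by simpa using huw, ?_, ?_⟩
  · intro i hi
    by_cases h0 : i = 0
    · subst h0
      have : ¬ (0 + 1 = n + 2) := by omega
      simp only [if_true, this, if_false]
      simpa [q0] using huy
    · by_cases h1 : i = n + 1
      · subst h1
        have h2 : ¬ (n + 1 = n + 2) := by omega
        simp only [h0, h2, if_false]
        simpa [qn] using hzw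
      · have h2 : ¬ (i = n + 2) := by omega
        have h3 : ¬ (i + 1 = n + 2) := by omega
        have h4 : ¬ (i + 1 = 0) := by omega
        simp only [h0, h2, h3, h4, if_false]
        have h5 : i + 1 - 1 = i - 1 + 1 := by omega
        rw [h5]
        exact (hq (i - 1) (by omega)).1
  · intro i h0 h1
    have h2 : ¬ (i = 0) := by omega
    have h3 : ¬ (i = n + 2) := by omega
    simp only [h2, h3, if_false]
    by_cases h4 : i - 1 < n
    · exact (hq (i - 1) h4).2.1
    · have : i - 1 = n := by omega
      rw [this, qn]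
      exact hz

lemma exists_ear (E : V → V → Prop) (hE : StronglyBiconnected E) (S : Finset V)
    (hS : S.Nonempty) (x0 : V) (hx0 : x0 ∉ S) : ∃ m p, IsEar E S m p := by
  classical
  obtain ⟨s0, hs0⟩ := hS
  obtain ⟨u0, y0, hu0, hy0, huy0, hyx0⟩ := last_exit E S (hE.1 s0 x0) hs0 hx0
  obtain ⟨z0, w0, hz0, hw0, hxz0, hzw0⟩ := first_entrance E S (hE.1 x0 s0) hx0 hs0
  by_cases hcard : S.card = 1
  · exact ear_of_walk E S u0 y0 z0 w0 hu0 hw0 hy0 hz0 (Or.inr hcard) huy0 (hyx0.trans hxz0) hzw0
  by_contra hno
  have key : ∀ x u y z w, x ∉ S → u ∈ S → w ∈ S → y ∉ S → z ∉ S → E u y →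
      ReflTransGen (Eo E S) y x → ReflTransGen (Eo E S) x z → E z w → u = w := by
    intro x u y z w _ hu hw hy hz huy hyx hxz hzw
    by_contra hne
    exact hno (ear_of_walk E S u y z w hu hw hy hz (Or.inl hne) huy (hyx.trans hxz) hzw)
  obtain ⟨s1, hs1, hs1u⟩ : ∃ s1 ∈ S, s1 ≠ u0 := by
    by_contra hcon
    push Not at hcon
    apply hcard
    rw [Finset.card_eq_one]
    exact ⟨u0, Finset.eq_singleton_iff_unique_mem.2 ⟨hu0, hcon⟩⟩
  have hx0u : x0 ≠ u0 := by rintro rfl; exact hx0 hu0
  have hconn := hE.2 u0 x0 s1 hx0u hs1u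
  -- the class of vertices outside S reached from u0
  have hK : ∀ a, ReflTransGen (fun a b => a ≠ u0 ∧ b ≠ u0 ∧ (E a b ∨ E b a)) x0 a →
      a ∉ S ∧ ∃ y, y ∉ S ∧ E u0 y ∧ ReflTransGen (Eo E S) y a := by
    intro a ha
    induction ha with
    | refl => exact ⟨hx0, y0, hy0, huy0, hyx0⟩
    | @tail a c _ hac ih =>
      obtain ⟨ha, y, hy, huy, hya⟩ := ih
      obtain ⟨-, hcu, hEac⟩ := hac
      obtain ⟨z, w, hz, hw, haz, hzw⟩ := first_entrance E S (hE.1 a s0) ha hs0
      have hwu : u0 = w := key a u0 y z w ha hu0 hw hy hz huy hya haz hzw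
      by_cases hc : c ∈ S
      · exfalso
        rcases hEac with h | h
        · exact hcu (key a u0 y a c ha hu0 hc hy ha huy hya ReflTransGen.refl h).symm
        · have := key a c a z w ha hc hw ha hz h ReflTransGen.refl haz hzw
          exact hcu (this.trans hwu.symm)
      · refine ⟨hc, ?_⟩
        rcases hEac with h | h
        · exact ⟨y, hy, huy, hya.tail ⟨h, ha, hc⟩⟩
        · obtain ⟨u', y', hu', hy', huy', hyc'⟩ := last_exit E S (hE.1 s0 c) hs0 hc
          have h1 : u' = w :=
            key a u' y' z w ha hu' hw hy' hz huy' (hyc'.tail ⟨h, hc, ha⟩) haz hzw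
          have h2 : u' = u0 := h1.trans hwu.symm
          subst h2
          exact ⟨y', hy', huy', hyc'⟩
  exact (hK s1 hconn).1 hs1

/-- every partial structure extends to a spanning one -/
lemma extend [Fintype V] (E : V → V → Prop) (hE : StronglyBiconnected E) :
    ∀ k : ℕ, ∀ S F, Good E S F → Fintype.card V - S.card = k → ∃ F', Good E Finset.univ F' := by
  classical
  intro k
  induction k using Nat.strong_induction_on with
  | _ k ih =>
    intro S F hG hk
    by_cases hS : S = Finset.univ
    · subst hS; exact ⟨F, hG⟩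
    · obtain ⟨x0, hx0⟩ : ∃ x0, x0 ∉ S := by
        by_contra hcon
        push Not at hcon
        exact hS (Finset.eq_univ_of_forall hcon)
      obtain ⟨m, p, hp, hinj⟩ := shortest_ear E S (exists_ear E hE S hG.1 x0 hx0)
      obtain ⟨S', F', hG', hlt⟩ := add_ear E S F hG m p hp hinj
      have h1 := Finset.card_le_univ S'
      have h2 := Finset.card_le_univ S
      exact ih (Fintype.card V - S'.card) (by omega) S' F' hG' rfl

end

/-- **Arc bound for minimal strongly biconnected digraphs.** A minimal strongly biconnected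
digraph on `n ≥ 1` vertices has at most `2 n - 2` arcs. -/
theorem result {V : Type*} [Fintype V] [Nonempty V] (E : V → V → Prop)
    (_hirr : ∀ v, ¬ E v v) (hmin : IsMinimalSB E) :
    Set.ncard {p : V × V | E p.1 p.2} + 2 ≤ 2 * Fintype.card V := by
  classical
  obtain ⟨v0⟩ := ‹Nonempty V›
  have hG0 : Good E {v0} ∅ := by
    refine ⟨⟨v0, by simp⟩, by simp, ?_, ?_, by simp⟩
    · intro u hu v hv
      rw [Finset.mem_singleton] at hu hv
      rw [hu, hv]
    · intro x u hu v hv _ _
      rw [Finset.mem_singleton] at hu hv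
      rw [hu, hv]
  obtain ⟨F, hF⟩ := extend E hmin.1 _ {v0} ∅ hG0 rfl
  obtain ⟨-, hFE, hsc, hna, hcard⟩ := hF
  have hsub : {p : V × V | E p.1 p.2} ⊆ (F : Set (V × V)) := by
    intro e he
    by_contra hcon
    apply hmin.2 e.1 e.2 he
    have hmem : ∀ a b, (a, b) ∈ F → E a b ∧ ¬ (a = e.1 ∧ b = e.2) := by
      intro a b hab
      refine ⟨hFE _ hab, ?_⟩
      rintro ⟨h1, h2⟩
      apply hcon
      have : e = (a, b) := Prod.ext h1.symm h2.symm
      rw [this]
      exact hab
    refine ⟨fun u v => ?_, fun x u v hu hv => ?_⟩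
    · exact rtg_mono hmem (hsc u (Finset.mem_univ _) v (Finset.mem_univ _))
    · refine rtg_mono (fun a b h => ?_) (hna x u (Finset.mem_univ _) v (Finset.mem_univ _) hu hv)
      refine ⟨h.1, h.2.1, ?_⟩
      rcases h.2.2 with h | h
      · exact Or.inl (hmem a b h)
      · exact Or.inr (hmem b a h)
  have := Set.ncard_le_ncard hsub (Finset.finite_toSet F)
  rw [Set.ncard_coe_finset] at this
  rw [Finset.card_univ] at hcard
  omega

end Pool.Agent.Results.MP_5e4462_co.ArcBound
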